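import Mathlib

set_option autoImplicit false

open MeasureTheory Metric Set Filter Topology
open scoped ENNReal

namespace Pool.Agent.H90Z.Stad

section defs
variable {X : Type*} [MetricSpace X] [MeasurableSpace X] [BorelSpace X]

/-- inner parallel set -/
def inn (A : Set X) (ε : ℝ) : Set X := {y | ball y ε ⊆ A}

omit [MeasurableSpace X] [BorelSpace X] in
lemma isClosed_inn (A : Set X) (ε : ℝ) : IsClosed (inn A ε) := by
  have : inn A ε = (thickening ε Aᶜ)ᶜ := by
    ext y
    simp only [inn, mem_setOf_eq, mem_compl_iff, mem_thickening_iff, not_exists, not_and]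
    constructor
    · intro h z hz hd; exact hz (h (by rwa [mem_ball, dist_comm]))
    · intro h z hz; by_contra hA; exact h z hA (by rwa [mem_ball, dist_comm] at hz)
  rw [this]; exact isOpen_thickening.isClosed_compl

omit [MeasurableSpace X] [BorelSpace X] in
lemma inn_subset (A : Set X) {ε : ℝ} (hε : 0 < ε) : inn A ε ⊆ A :=
  fun _ hy => hy (mem_ball_self hε)

omit [MeasurableSpace X] [BorelSpace X] in
lemma inn_inter (A B : Set X) (ε : ℝ) : inn (A ∩ B) ε = inn A ε ∩ inn B ε := by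
  ext y; simp [inn, subset_inter_iff]

omit [MeasurableSpace X] [BorelSpace X] in
lemma inn_mono {A B : Set X} (h : A ⊆ B) (ε : ℝ) : inn A ε ⊆ inn B ε :=
  fun _ hy => Subset.trans hy h

/-- inward unit rays starting from `P` sweep out enough measure -/
def Ray (μ : Measure X) (ε : ℝ) (W P : Set X) : Prop :=
  ∀ Γ, Γ ⊆ P → MeasurableSet Γ → ∃ R, MeasurableSet R ∧
    ENNReal.ofReal (ε * (1 - ε)) * μH[1] Γ ≤ μ R ∧
    ∀ y ∈ R, ∃ x ∈ Γ, ∃ c, closedBall c 1 ⊆ W ∧ dist x c = 1 ∧
      dist y x + dist y c = 1 ∧ dist y x < ε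

lemma Ray.mono {μ : Measure X} {ε : ℝ} {W W' P P' : Set X} (h : Ray μ ε W P)
    (hW : W ⊆ W') (hP : P' ⊆ P) : Ray μ ε W' P' := by
  intro Γ hΓ hm
  obtain ⟨R, hR, h1, h2⟩ := h Γ (hΓ.trans hP) hm
  refine ⟨R, hR, h1, fun y hy => ?_⟩
  obtain ⟨x, hx, c, hc, h3⟩ := h2 y hy
  exact ⟨x, hx, c, hc.trans hW, h3⟩

lemma Ray.empty (μ : Measure X) (ε : ℝ) (W : Set X) : Ray μ ε W ∅ := by
  intro Γ hΓ _
  refine ⟨∅, MeasurableSet.empty, ?_, by simp⟩
  rw [subset_empty_iff.1 hΓ]; simp

/-- calibrable sets with a rolling unit ball -/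
structure Good (μ : Measure X) (ρ V : ℝ) (C : Set X) : Prop where
  closed : IsClosed C
  fin : μ C ≠ ⊤
  le : μ.real C ≤ V
  cheeger : ∀ ε, 0 < ε → ε < 1 → ∀ A, A ⊆ C → IsClosed A →
    (1 + ρ * ε) * μ.real (inn A ε) ≤ μ.real A
  self : ∀ ε, 0 < ε → ε < 1 → μ.real C - μ.real (inn C ε) ≤ ρ * ε * μ.real C
  ray : ∀ ε, 0 < ε → ε < 1 → Ray μ ε C (frontier C)

end defs

section transport
variable {X Y : Type*} [MetricSpace X] [MeasurableSpace X] [BorelSpace X]
  [MetricSpace Y] [MeasurableSpace Y] [BorelSpace Y]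

omit [MeasurableSpace X] [BorelSpace X] [MeasurableSpace Y] [BorelSpace Y] in
lemma inn_image (g : X ≃ᵢ Y) (A : Set X) (ε : ℝ) : inn (g '' A) ε = g '' inn A ε := by
  ext y
  obtain ⟨x, rfl⟩ := g.surjective y
  rw [g.injective.mem_set_image]
  simp only [inn, mem_setOf_eq]
  rw [← g.image_ball, image_subset_image_iff g.injective]

lemma meas_image (g : X ≃ᵢ Y) {μ : Measure X} {ν : Measure Y} (hg : MeasurePreserving g μ ν)
    (A : Set X) : ν (g '' A) = μ A := by
  have h := (hg.measure_preimage_equiv (f := g.toHomeomorph.toMeasurableEquiv)) (g '' A)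
  rw [← h]
  congr 1
  exact preimage_image_eq A g.injective

lemma real_image (g : X ≃ᵢ Y) {μ : Measure X} {ν : Measure Y} (hg : MeasurePreserving g μ ν)
    (A : Set X) : ν.real (g '' A) = μ.real A := by
  simp only [Measure.real, meas_image g hg]

lemma Ray.image (g : X ≃ᵢ Y) {μ : Measure X} {ν : Measure Y} (hg : MeasurePreserving g μ ν)
    {ε : ℝ} {W P : Set X} (h : Ray μ ε W P) : Ray ν ε (g '' W) (g '' P) := by
  intro Γ hΓ hm
  have hΓ' : g ⁻¹' Γ ⊆ P := by
    intro x hx
    exact g.injective.mem_set_image.1 (hΓ hx)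
  obtain ⟨R, hR, h1, h2⟩ := h (g ⁻¹' Γ) hΓ' (g.continuous.measurable hm)
  refine ⟨g '' R, ?_, ?_, ?_⟩
  · exact (g.toHomeomorph.toMeasurableEquiv.measurableEmbedding.measurableSet_image).2 hR
  · rw [meas_image g hg, ← g.hausdorffMeasure_preimage 1 Γ]; exact h1
  · rintro _ ⟨y, hy, rfl⟩
    obtain ⟨x, hx, c, hc, h3, h4, h5⟩ := h2 y hy
    refine ⟨g x, hx, g c, ?_, ?_, ?_, ?_⟩
    · rw [← g.image_closedBall]; exact image_mono hc
    · rw [g.dist_eq]; exact h3
    · rw [g.dist_eq, g.dist_eq]; exact h4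
    · rw [g.dist_eq]; exact h5

lemma Good.image (g : X ≃ᵢ Y) {μ : Measure X} {ν : Measure Y} (hg : MeasurePreserving g μ ν)
    {ρ V : ℝ} {C : Set X} (h : Good μ ρ V C) : Good ν ρ V (g '' C) where
  closed := g.toHomeomorph.isClosedMap _ h.closed
  fin := by rw [meas_image g hg]; exact h.fin
  le := by rw [real_image g hg]; exact h.le
  cheeger := by
    intro ε h0 h1 A hA hc
    have e : A = g '' (g ⁻¹' A) := (image_preimage_eq A g.surjective).symm
    have hs : g ⁻¹' A ⊆ C := fun x hx => g.injective.mem_set_image.1 (hA hx)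
    have := h.cheeger ε h0 h1 (g ⁻¹' A) hs (hc.preimage g.continuous)
    rw [e, inn_image, real_image g hg, real_image g hg]
    exact this
  self := by
    intro ε h0 h1
    rw [inn_image, real_image g hg, real_image g hg]
    exact h.self ε h0 h1
  ray := by
    intro ε h0 h1
    have := (h.ray ε h0 h1).image g hg
    have e : g '' frontier C = frontier (g '' C) := g.toHomeomorph.image_frontier C
    rwa [e] at this

end transport

section main
variable {E : Type*} [NormedAddCommGroup E] [NormedSpace ℝ E] [StrictConvexSpace ℝ E]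
  [MeasurableSpace E] [BorelSpace E]

omit [MeasurableSpace E] [BorelSpace E] in
lemma foot_unique {W : Set E} {x x' c c' y : E} (hx : x ∈ frontier W) (hx' : x' ∈ frontier W)
    (hc : closedBall c 1 ⊆ W) (hc' : closedBall c' 1 ⊆ W)
    (h1 : dist y x + dist y c = 1) (h1' : dist y x' + dist y c' = 1)
    (hd : dist x c = 1) (ht : dist y x < 1) : x = x' := by
  have key : ∀ {z d : E}, z ∈ frontier W → closedBall d 1 ⊆ W → 1 ≤ dist z d := by
    intro z d hz hd
    by_contra hlt
    push Not at hlt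
    have : z ∈ interior W :=
      interior_mono (ball_subset_closedBall.trans hd) (by rw [isOpen_ball.interior_eq]; exact hlt)
    exact hz.2 this
  have a1 := key hx' hc
  have a2 := key hx hc'
  have t1 := dist_triangle x' y c
  have t2 := dist_triangle x y c'
  rw [dist_comm x' y] at t1
  rw [dist_comm x y] at t2
  have ht' : dist y x' = dist y x := by linarith
  have hd' : dist x' c = 1 := by linarith
  have hu : ‖y - c‖ ≠ 0 := by rw [← dist_eq_norm]; linarith [ht]
  have s1 : SameRay ℝ (x - y) (y - c) := by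
    rw [sameRay_iff_norm_add, sub_add_sub_cancel, ← dist_eq_norm, ← dist_eq_norm, ← dist_eq_norm,
      dist_comm x y]; linarith
  have s2 : SameRay ℝ (x' - y) (y - c) := by
    rw [sameRay_iff_norm_add, sub_add_sub_cancel, ← dist_eq_norm, ← dist_eq_norm, ← dist_eq_norm,
      dist_comm x' y]; linarith
  rw [sameRay_iff_norm_smul_eq] at s1 s2
  have e : ‖x - y‖ = ‖x' - y‖ := by
    rw [← dist_eq_norm, ← dist_eq_norm, dist_comm x y, dist_comm x' y, ht']
  rw [e, s2] at s1
  have := smul_right_injective E hu s1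
  exact (sub_left_injective this).symm

lemma Ray.union {μ : Measure E} {ε : ℝ} (hε : ε < 1) {W P Q : Set E} (hm : MeasurableSet P)
    (hP : Ray μ ε W (P ∩ frontier W)) (hQ : Ray μ ε W (Q ∩ frontier W)) :
    Ray μ ε W ((P ∪ Q) ∩ frontier W) := by
  intro Γ hΓ hΓm
  obtain ⟨R, hR, h1, h2⟩ := hP (Γ ∩ P) (fun x hx => ⟨hx.2, (hΓ hx.1).2⟩) (hΓm.inter hm)
  obtain ⟨S, hS, h3, h4⟩ := hQ (Γ \ P)
    (fun x hx => ⟨((hΓ hx.1).1).resolve_left hx.2, (hΓ hx.1).2⟩) (hΓm.diff hm)
  have hdisj : Disjoint R S := by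
    rw [Set.disjoint_left]
    intro y hy hy'
    obtain ⟨x, hx, c, hc, a1, a2, a3⟩ := h2 y hy
    obtain ⟨x', hx', c', hc', _, b2, _⟩ := h4 y hy'
    have := foot_unique (hΓ hx.1).2 (hΓ hx'.1).2 hc hc' a2 b2 a1 (a3.trans hε)
    exact hx'.2 (this ▸ hx.2)
  refine ⟨R ∪ S, hR.union hS, ?_, ?_⟩
  · rw [measure_union hdisj hS, ← measure_inter_add_diff Γ hm, mul_add]
    exact add_le_add h1 h3
  · rintro y (hy | hy)
    · obtain ⟨x, hx, r⟩ := h2 y hy; exact ⟨x, hx.1, r⟩
    · obtain ⟨x, hx, r⟩ := h4 y hy; exact ⟨x, hx.1, r⟩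

lemma ray_biUnion {ι : Type*} {μ : Measure E} {ε : ℝ} (hε : ε < 1) (W : Set E) (P : ι → Set E)
    (hm : ∀ i, MeasurableSet (P i)) (hP : ∀ i, Ray μ ε W (P i ∩ frontier W)) (s : Finset ι) :
    Ray μ ε W ((⋃ i ∈ s, P i) ∩ frontier W) := by
  classical
  induction s using Finset.induction_on with
  | empty => simpa using Ray.empty μ ε W
  | insert a s _ ih =>
    rw [Finset.set_biUnion_insert]
    exact Ray.union hε (hm a) (hP a) ih

omit [NormedSpace ℝ E] [StrictConvexSpace ℝ E] in
lemma ray_le {μ : Measure E} {ε : ℝ} (hε : ε < 1) {W : Set E} (h : Ray μ ε W (frontier W)) :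
    ENNReal.ofReal (ε * (1 - ε)) * μH[1] (frontier W) ≤ μ (W \ inn W ε) := by
  obtain ⟨R, _, h1, h2⟩ := h _ Subset.rfl isClosed_frontier.measurableSet
  refine h1.trans (measure_mono fun y hy => ?_)
  obtain ⟨x, hx, c, hc, _, a2, a3⟩ := h2 y hy
  refine ⟨hc ?_, fun hin => ?_⟩
  · rw [mem_closedBall]; linarith [dist_nonneg (x := y) (y := x)]
  · have : x ∈ interior W :=
      interior_mono hin (by rw [isOpen_ball.interior_eq, mem_ball, dist_comm]; exact a3)
    exact hx.2 this

omit [NormedSpace ℝ E] [StrictConvexSpace ℝ E] in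
lemma union_bound {ι : Type*} {μ : Measure E} {ρ V ε : ℝ} (hρ : 0 ≤ ρ) (h0 : 0 < ε) (h1 : ε < 1)
    (C : ι → Set E) (hC : ∀ i, Good μ ρ V (C i)) (s : Finset ι) :
    μ.real (⋃ i ∈ s, C i) - μ.real (inn (⋃ i ∈ s, C i) ε) ≤
      ρ * ε * μ.real (⋃ i ∈ s, C i) + s.card * ((ρ * ε) ^ 2 * V) := by
  classical
  induction s using Finset.induction_on with
  | empty => simp [measureReal_nonneg]
  | insert a s ha ih =>
    rw [Finset.set_biUnion_insert, Finset.card_insert_of_notMem ha]
    set U := ⋃ i ∈ s, C i with hU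
    have hUc : IsClosed U := s.finite_toSet.isClosed_biUnion fun i _ => (hC i).closed
    have hUf : μ U ≠ ⊤ := measure_biUnion_ne_top s.finite_toSet fun i _ => (hC i).fin
    have hA := hC a
    have e1 := measureReal_union_add_inter (μ := μ) (s := C a) hUc.measurableSet hA.fin hUf
    have f1 : μ (inn (C a) ε) ≠ ⊤ := measure_ne_top_of_subset (inn_subset _ h0) hA.fin
    have f2 : μ (inn U ε) ≠ ⊤ := measure_ne_top_of_subset (inn_subset _ h0) hUf
    have e2 := measureReal_union_add_inter (μ := μ) (s := inn (C a) ε)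
      (isClosed_inn U ε).measurableSet f1 f2
    rw [← inn_inter] at e2
    have e3 : μ.real (inn (C a) ε ∪ inn U ε) ≤ μ.real (inn (C a ∪ U) ε) := by
      refine measureReal_mono (union_subset (inn_mono subset_union_left ε)
        (inn_mono subset_union_right ε)) ?_
      exact measure_ne_top_of_subset (inn_subset _ h0) (measure_union_ne_top hA.fin hUf)
    have e4 := hA.cheeger ε h0 h1 (C a ∩ U) inter_subset_left (hA.closed.inter hUc)
    have e5 := hA.self ε h0 h1
    have e6 : μ.real (C a ∩ U) ≤ V :=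
      (measureReal_mono inter_subset_left hA.fin).trans hA.le
    set η := ρ * ε with hη
    have hη0 : 0 ≤ η := mul_nonneg hρ h0.le
    set p := μ.real (inn (C a ∩ U) ε)
    set q := μ.real (C a ∩ U)
    have hp : 0 ≤ p := measureReal_nonneg
    have hq : 0 ≤ q := measureReal_nonneg
    have e7 : p ≤ q - η * q + η ^ 2 * V := by
      have : p ≤ (1 - η + η ^ 2) * q := by
        have k1 : 0 ≤ 1 - η + η ^ 2 := by nlinarith [sq_nonneg (η - 1 / 2)]
        have k2 := mul_le_mul_of_nonneg_left e4 k1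
        have k3 : 0 ≤ η ^ 3 * p := by positivity
        nlinarith
      nlinarith [mul_le_mul_of_nonneg_left e6 (sq_nonneg η)]
    push_cast
    nlinarith

theorem main_bound {ι : Type*} [Fintype ι] {μ : Measure E} {ρ V : ℝ} (hρ : 0 ≤ ρ)
    (C : ι → Set E) (hC : ∀ i, Good μ ρ V (C i)) :
    μH[1] (frontier (⋃ i, C i)) ≤ ENNReal.ofReal (ρ * μ.real (⋃ i, C i)) := by
  classical
  set U := ⋃ i, C i with hU
  have hU' : U = ⋃ i ∈ (Finset.univ : Finset ι), C i := by simp [hU]
  have hUf : μ U ≠ ⊤ := by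
    rw [hU']; exact measure_biUnion_ne_top (Finset.finite_toSet _) fun i _ => (hC i).fin
  have hUc : IsClosed U := isClosed_iUnion_of_finite fun i => (hC i).closed
  have hfr : frontier U ⊆ ⋃ i ∈ (Finset.univ : Finset ι), frontier (C i) := by
    intro x hx
    have hxU : x ∈ U := hUc.frontier_subset hx
    obtain ⟨i, hi⟩ := mem_iUnion.1 hxU
    simp only [Finset.mem_univ, iUnion_true, mem_iUnion]
    exact ⟨i, subset_closure hi, fun h => hx.2 (interior_mono (subset_iUnion C i) h)⟩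
  set n : ℝ := (Fintype.card ι : ℝ)
  have key : ∀ ε : ℝ, 0 < ε → ε < 1 → μH[1] (frontier U) ≤
      ENNReal.ofReal ((ρ * μ.real U + n * (ρ ^ 2 * ε * V)) / (1 - ε)) := by
    intro ε h0 h1
    have r1 : Ray μ ε U (frontier U) := by
      have := ray_biUnion (μ := μ) h1 U (fun i => frontier (C i))
        (fun i => isClosed_frontier.measurableSet)
        (fun i => ((hC i).ray ε h0 h1).mono (subset_iUnion C i) inter_subset_left) Finset.univ
      exact this.mono Subset.rfl fun x hx => ⟨hfr hx, hx⟩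
    have r2 := ray_le h1 r1
    have r3 := union_bound hρ h0 h1 C hC Finset.univ
    rw [← hU', Finset.card_univ] at r3
    have r4 : μ (U \ inn U ε) = ENNReal.ofReal (μ.real U - μ.real (inn U ε)) := by
      rw [← measureReal_diff (inn_subset _ h0) (isClosed_inn U ε).measurableSet hUf,
        ofReal_measureReal (measure_ne_top_of_subset diff_subset hUf)]
    have hpos : 0 < ε * (1 - ε) := mul_pos h0 (by linarith)
    have r5 : ENNReal.ofReal (ε * (1 - ε)) * μH[1] (frontier U) ≤ ENNReal.ofReal (ε * (1 - ε)) *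
        ENNReal.ofReal ((ρ * μ.real U + n * (ρ ^ 2 * ε * V)) / (1 - ε)) := by
      rw [← ENNReal.ofReal_mul hpos.le]
      refine r2.trans ?_
      rw [r4]
      refine ENNReal.ofReal_le_ofReal (r3.trans (le_of_eq ?_))
      have : (1 - ε) ≠ 0 := by linarith
      field_simp
      ring
    exact (ENNReal.mul_le_mul_iff_right (by simpa using hpos) ENNReal.ofReal_ne_top).1 r5
  have lim : Tendsto (fun ε : ℝ => ENNReal.ofReal ((ρ * μ.real U + n * (ρ ^ 2 * ε * V)) / (1 - ε)))
      (𝓝[>] 0) (𝓝 (ENNReal.ofReal (ρ * μ.real U))) := by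
    refine ENNReal.tendsto_ofReal (tendsto_nhdsWithin_of_tendsto_nhds ?_)
    have : ContinuousAt (fun ε : ℝ => (ρ * μ.real U + n * (ρ ^ 2 * ε * V)) / (1 - ε)) 0 := by
      refine ContinuousAt.div (by fun_prop) (by fun_prop) (by norm_num)
    simpa using this.tendsto
  refine ge_of_tendsto lim ?_
  filter_upwards [Ioo_mem_nhdsGT (show (0 : ℝ) < 1 by norm_num)] with ε hε
  exact key ε hε.1 hε.2

end main

end Pool.Agent.H90Z.Stad
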