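import Pool.Agent.H90Z.Stad.Rays

set_option autoImplicit false

open MeasureTheory Metric Set Filter Topology Real
open scoped ENNReal Pointwise

namespace Pool.Agent.H90Z.Stad

/-- triangular maps of the plane -/
def tri (a b ψ : ℝ → ℝ) (p : ℝ × ℝ) : ℝ × ℝ := (a p.2 * p.1 + b p.2, ψ p.2)

lemma tri_vol {a b ψ a' b' ψ' : ℝ → ℝ} {κ : ℝ}
    (ha : ∀ y ∈ Ioo (-1 : ℝ) 1, HasDerivAt a (a' y) y)
    (hb : ∀ y ∈ Ioo (-1 : ℝ) 1, HasDerivAt b (b' y) y)
    (hψ : ∀ y ∈ Ioo (-1 : ℝ) 1, HasDerivAt ψ (ψ' y) y)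
    (ha0 : ∀ y ∈ Ioo (-1 : ℝ) 1, a y ≠ 0) (hψ0 : ∀ y ∈ Ioo (-1 : ℝ) 1, 0 < ψ' y)
    (hκ : ∀ y ∈ Ioo (-1 : ℝ) 1, κ ≤ a y * ψ' y)
    {S : Set (ℝ × ℝ)} (hS : MeasurableSet S) (hS1 : ∀ p ∈ S, p.2 ∈ Ioo (-1 : ℝ) 1) :
    MeasurableSet (tri a b ψ '' S) ∧ ENNReal.ofReal κ * volume S ≤ volume (tri a b ψ '' S) := by
  have hmono : StrictMonoOn ψ (Ioo (-1 : ℝ) 1) := by
    refine strictMonoOn_of_deriv_pos (convex_Ioo _ _)
      (fun y hy => (hψ y hy).continuousAt.continuousWithinAt) ?_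
    intro y hy
    rw [interior_Ioo] at hy
    rw [(hψ y hy).deriv]; exact hψ0 y hy
  have hinj : InjOn (tri a b ψ) S := by
    rintro ⟨x, y⟩ hp ⟨x', y'⟩ hq h
    simp only [tri, Prod.mk.injEq] at h
    have e : y = y' := hmono.injOn (hS1 _ hp) (hS1 _ hq) h.2
    subst e
    have := mul_left_cancel₀ (ha0 y (hS1 _ hp)) (add_right_cancel h.1)
    rw [this]
  set D : ℝ × ℝ → (ℝ × ℝ →L[ℝ] ℝ × ℝ) := fun p =>
    (Matrix.toLin (.finTwoProd ℝ) (.finTwoProd ℝ)
      !![a p.2, a' p.2 * p.1 + b' p.2; 0, ψ' p.2]).toContinuousLinearMap with hD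
  have hder : ∀ p ∈ S, HasFDerivWithinAt (tri a b ψ) (D p) S p := by
    intro p hp
    refine HasFDerivAt.hasFDerivWithinAt ?_
    have h1 := (ha _ (hS1 p hp)).comp_hasFDerivAt p (hasFDerivAt_snd (𝕜 := ℝ) (p := p))
    have h2 := (hb _ (hS1 p hp)).comp_hasFDerivAt p (hasFDerivAt_snd (𝕜 := ℝ) (p := p))
    have h3 := (hψ _ (hS1 p hp)).comp_hasFDerivAt p (hasFDerivAt_snd (𝕜 := ℝ) (p := p))
    have h4 := HasFDerivAt.prodMk (𝕜 := ℝ) ((h1.mul hasFDerivAt_fst).add h2) h3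
    refine HasFDerivAt.congr_fderiv h4 ?_
    simp only [hD]
    rw [Matrix.toLin_finTwoProd_toContinuousLinearMap]
    ext <;> simp
    ring
  have hdet : ∀ p, (D p).det = a p.2 * ψ' p.2 := by
    intro p
    simp only [hD, LinearMap.det_toContinuousLinearMap, LinearMap.det_toLin,
      Matrix.det_fin_two_of]
    ring
  refine ⟨measurable_image_of_fderivWithin hS hder hinj, ?_⟩
  rw [← lintegral_abs_det_fderiv_eq_addHaar_image volume hS hder hinj, ← setLIntegral_const]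
  refine setLIntegral_mono' hS fun p hp => ENNReal.ofReal_le_ofReal ?_
  rw [hdet]
  exact (hκ _ (hS1 p hp)).trans (le_abs_self _)

/-- height function of the unit circle -/
noncomputable def sq (y : ℝ) : ℝ := √(1 - y ^ 2)

/-- vertical component of the calibration over the segment -/
noncomputable def vv (y : ℝ) : ℝ := 3 / 2 * y - (y * sq y + arcsin y) / π

lemma sq_nonneg' (y : ℝ) : 0 ≤ sq y := Real.sqrt_nonneg _

lemma sq_le_one (y : ℝ) : sq y ≤ 1 := Real.sqrt_le_one.2 (by nlinarith [sq_nonneg y])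

lemma sq_sq {y : ℝ} (hy : y ∈ Ioo (-1 : ℝ) 1) : sq y ^ 2 = 1 - y ^ 2 :=
  Real.sq_sqrt (by nlinarith [hy.1, hy.2])

lemma sq_pos {y : ℝ} (hy : y ∈ Ioo (-1 : ℝ) 1) : 0 < sq y :=
  Real.sqrt_pos.2 (by nlinarith [hy.1, hy.2])

lemma sq_anti {y y' : ℝ} (h : |y'| ≤ |y|) : sq y ≤ sq y' :=
  Real.sqrt_le_sqrt (by nlinarith [sq_le_sq.2 h])

lemma hasDerivAt_sq {y : ℝ} (hy : y ∈ Ioo (-1 : ℝ) 1) : HasDerivAt sq (-y / sq y) y := by
  have h1 : HasDerivAt (fun y : ℝ => 1 - y ^ 2) (-(2 * y)) y := by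
    simpa using (hasDerivAt_pow 2 y).const_sub 1
  have h2 := h1.sqrt (by nlinarith [hy.1, hy.2])
  refine HasDerivAt.congr_deriv h2 ?_
  have := (sq_pos hy).ne'
  unfold sq at *
  field_simp

lemma hasDerivAt_area {y : ℝ} (hy : y ∈ Ioo (-1 : ℝ) 1) :
    HasDerivAt (fun y => y * sq y + arcsin y) (2 * sq y) y := by
  have h1 := ((hasDerivAt_id y).mul (hasDerivAt_sq hy)).add
    (hasDerivAt_arcsin hy.1.ne' hy.2.ne)
  refine HasDerivAt.congr_deriv h1 ?_
  have h0 := (sq_pos hy).ne'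
  have h2 := sq_sq hy
  change 1 * sq y + y * (-y / sq y) + 1 / sq y = 2 * sq y
  field_simp
  nlinarith

lemma hasDerivAt_vv {y : ℝ} (hy : y ∈ Ioo (-1 : ℝ) 1) :
    HasDerivAt vv (3 / 2 - 2 / π * sq y) y := by
  have h1 := ((hasDerivAt_id y).const_mul (3 / 2)).sub ((hasDerivAt_area hy).div_const π)
  refine HasDerivAt.congr_deriv h1 ?_
  ring

lemma area_ge {y : ℝ} (h0 : 0 ≤ y) (h1 : y ≤ 1) : π / 2 * y ≤ y * sq y + arcsin y := by
  have hc : ConcaveOn ℝ (Icc (0 : ℝ) 1) (fun y => y * sq y + arcsin y) := by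
    refine AntitoneOn.concaveOn_of_deriv (convex_Icc _ _) ?_ ?_ ?_
    · refine Continuous.continuousOn ?_
      unfold sq
      have := continuous_arcsin
      fun_prop
    · rw [interior_Icc]
      intro y hy
      exact (hasDerivAt_area ⟨by linarith [hy.1], hy.2⟩).differentiableAt.differentiableWithinAt
    · rw [interior_Icc]
      intro y hy z hz hyz
      rw [(hasDerivAt_area ⟨by linarith [hy.1], hy.2⟩).deriv,
        (hasDerivAt_area ⟨by linarith [hz.1], hz.2⟩).deriv]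
      have : sq z ≤ sq y := sq_anti (by rw [abs_of_pos hy.1, abs_of_pos hz.1]; exact hyz)
      linarith
  have := hc.2 (x := 0) (y := 1) ⟨le_rfl, zero_le_one⟩ ⟨zero_le_one, le_rfl⟩
    (show 0 ≤ 1 - y by linarith) h0 (by ring)
  simp only [smul_eq_mul, mul_zero, zero_mul, arcsin_zero, add_zero, mul_one, zero_add, arcsin_one,
    sq, one_pow, sub_self, Real.sqrt_zero] at this
  unfold sq
  linarith

lemma vv_pos {y : ℝ} (h0 : 0 ≤ y) (h1 : y ≤ 1) : |vv y| ≤ y := by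
  have hp := pi_pos
  have h3 := pi_gt_three
  rw [abs_le]
  unfold vv
  constructor
  · have a1 : 2 / π * arcsin y ≤ y := by
      have := Real.mul_le_sin (arcsin_nonneg.2 h0) (arcsin_le_pi_div_two y)
      rwa [sin_arcsin (by linarith) h1] at this
    have a2 : y * sq y ≤ y := by nlinarith [sq_le_one y, sq_nonneg' y]
    have a3 : arcsin y ≤ π / 2 * y := by
      have : arcsin y = π / 2 * (2 / π * arcsin y) := by field_simp
      rw [this]; exact mul_le_mul_of_nonneg_left a1 (by positivity)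
    have : (y * sq y + arcsin y) / π ≤ 5 / 2 * y := by
      rw [div_le_iff₀ hp]; nlinarith
    linarith
  · have : 1 / 2 * y ≤ (y * sq y + arcsin y) / π := by
      rw [le_div_iff₀ hp]; linarith [area_ge h0 h1]
    linarith

lemma vv_neg (y : ℝ) : vv (-y) = -vv y := by
  simp only [vv, sq, neg_sq, arcsin_neg]; ring

lemma abs_vv {y : ℝ} (hy : y ∈ Ioo (-1 : ℝ) 1) : |vv y| ≤ |y| := by
  rcases le_total 0 y with h | h
  · rw [abs_of_nonneg h]; exact vv_pos h hy.2.le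
  · have := vv_pos (y := -y) (by linarith) (by linarith [hy.1])
    rwa [vv_neg, abs_neg, ← abs_of_nonpos h] at this

lemma cheeger_St {ε : ℝ} (h0 : 0 < ε) {A : Set ℂ} (hA : A ⊆ St 1) (hc : IsClosed A) :
    ENNReal.ofReal (1 + 3 / 2 * ε) * volume (inn A ε) ≤ volume A := by
  have hp := pi_pos
  have h3 := pi_gt_three
  have hq := q_pos
  set e := Complex.measurableEquivRealProd
  have he : MeasurePreserving e.symm volume volume := Complex.volume_preserving_equiv_real_prod.symm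
  set X : Set (ℝ × ℝ) := e.symm ⁻¹' inn A ε with hX
  have hXm : MeasurableSet X := e.symm.measurable (isClosed_inn A ε).measurableSet
  have hball : ∀ p ∈ X, ∀ q : ℝ × ℝ, (q.1 - p.1) ^ 2 + (q.2 - p.2) ^ 2 ≤ ε ^ 2 →
      q ∈ e.symm ⁻¹' A := by
    intro p hp q hq
    have h1 : closedBall (e.symm p) ε ⊆ A := by
      rw [← closure_ball _ h0.ne']; exact closure_minimal hp hc
    refine h1 ?_
    rw [mem_closedBall, Complex.dist_eq_re_im]
    exact Real.sqrt_le_iff.2 ⟨h0.le, hq⟩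
  have hSt : ∀ p ∈ X, e.symm p ∈ St 1 := fun p hp => hA (inn_subset _ h0 hp)
  have hX1 : ∀ p ∈ X, p.2 ∈ Ioo (-1 : ℝ) 1 := by
    intro p hp
    have a1 := abs_im_le (hA (hball p hp (p.1, p.2 + ε) (by simp)))
    have a2 := abs_im_le (hA (hball p hp (p.1, p.2 - ε) (by simp)))
    have b1 : p.2 + ε ≤ 1 := (abs_le.1 a1).2
    have b2 : -1 ≤ p.2 - ε := (abs_le.1 a2).1
    exact ⟨by linarith, by linarith⟩
  have mR : MeasurableSet {p : ℝ × ℝ | π / 4 ≤ p.1} := measurableSet_le measurable_const measurable_fst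
  have mL : MeasurableSet {p : ℝ × ℝ | p.1 < -(π / 4)} :=
    measurableSet_lt measurable_fst measurable_const
  set XR := X ∩ {p : ℝ × ℝ | π / 4 ≤ p.1} with hXR
  set XL := (X \ {p : ℝ × ℝ | π / 4 ≤ p.1}) ∩ {p : ℝ × ℝ | p.1 < -(π / 4)} with hXL
  set XM := (X \ {p : ℝ × ℝ | π / 4 ≤ p.1}) \ {p : ℝ × ℝ | p.1 < -(π / 4)} with hXM
  have hκ : 1 + 3 / 2 * ε ≤ (1 + ε / 2) * (1 + ε) := by nlinarith
  obtain ⟨mTR, vR⟩ := tri_vol (a := fun _ => 1 + ε / 2) (b := fun y => ε / 2 * (sq y - π / 4))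
    (ψ := fun y => (1 + ε) * y) (κ := 1 + 3 / 2 * ε) (ψ' := fun _ => (1 + ε) * 1)
    (fun y _ => hasDerivAt_const y _)
    (fun y hy => ((hasDerivAt_sq hy).sub_const _).const_mul _)
    (fun y _ => (hasDerivAt_id y).const_mul _) (fun y _ => by positivity)
    (fun y _ => by positivity) (fun y _ => by rw [mul_one]; exact hκ)
    (hXm.inter mR) (fun p hp => hX1 p hp.1)
  obtain ⟨mTL, vL⟩ := tri_vol (a := fun _ => 1 + ε / 2) (b := fun y => -(ε / 2) * (sq y - π / 4))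
    (ψ := fun y => (1 + ε) * y) (κ := 1 + 3 / 2 * ε) (ψ' := fun _ => (1 + ε) * 1)
    (fun y _ => hasDerivAt_const y _)
    (fun y hy => ((hasDerivAt_sq hy).sub_const _).const_mul _)
    (fun y _ => (hasDerivAt_id y).const_mul _) (fun y _ => by positivity)
    (fun y _ => by positivity) (fun y _ => by rw [mul_one]; exact hκ)
    ((hXm.diff mR).inter mL) (fun p hp => hX1 p hp.1.1)
  have hsq : ∀ y, 0 ≤ 2 / π * sq y ∧ 2 / π * sq y ≤ 1 := by
    intro y
    have a1 := sq_nonneg' y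
    have a2 : 2 / π ≤ 1 := by rw [div_le_one hp]; linarith
    exact ⟨by positivity, mul_le_one₀ a2 a1 (sq_le_one y)⟩
  obtain ⟨mTM, vM⟩ := tri_vol (a := fun y => 1 + ε * (2 / π * sq y)) (b := fun _ => 0)
    (ψ := fun y => y + ε * vv y) (κ := 1 + 3 / 2 * ε)
    (ψ' := fun y => 1 + ε * (3 / 2 - 2 / π * sq y))
    (fun y hy => (((hasDerivAt_sq hy).const_mul _).const_mul _).const_add _)
    (fun y _ => hasDerivAt_const y _)
    (fun y hy => (hasDerivAt_id y).add ((hasDerivAt_vv hy).const_mul _))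
    (fun y _ => by have := (hsq y).1; positivity)
    (fun y _ => by nlinarith [(hsq y).2])
    (fun y _ => by
      obtain ⟨a1, a2⟩ := hsq y
      have : 0 ≤ ε ^ 2 * ((2 / π * sq y) * (3 / 2 - 2 / π * sq y)) :=
        mul_nonneg (sq_nonneg ε) (mul_nonneg a1 (by linarith))
      nlinarith)
    ((hXm.diff mR).diff mL) (fun p hp => hX1 p hp.1.1)
  set TR := tri (fun _ => 1 + ε / 2) (fun y => ε / 2 * (sq y - π / 4)) (fun y => (1 + ε) * y) '' XR
  set TL := tri (fun _ => 1 + ε / 2) (fun y => -(ε / 2) * (sq y - π / 4))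
    (fun y => (1 + ε) * y) '' XL
  set TM := tri (fun y => 1 + ε * (2 / π * sq y)) (fun _ => 0) (fun y => y + ε * vv y) '' XM
  have cmp : ∀ y y' : ℝ, y ∈ Ioo (-1 : ℝ) 1 → (1 + ε) * y' = y + ε * vv y → sq y ≤ sq y' := by
    intro y y' hy h
    refine sq_anti ?_
    have a1 : (1 + ε) * |y'| ≤ (1 + ε) * |y| := by
      calc (1 + ε) * |y'| = |y + ε * vv y| := by
            rw [← h, abs_mul, abs_of_pos (by linarith : 0 < 1 + ε)]
        _ ≤ |y| + ε * |vv y| := by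
            refine (abs_add_le _ _).trans (le_of_eq ?_)
            rw [abs_mul, abs_of_pos h0]
        _ ≤ (1 + ε) * |y| := by nlinarith [abs_vv hy]
    exact le_of_mul_le_mul_left a1 (by linarith)
  have d1 : Disjoint TR TL := by
    rw [Set.disjoint_left]
    rintro _ ⟨p, hp, rfl⟩ ⟨q, hq', h⟩
    simp only [tri, Prod.mk.injEq] at h
    have a1 : π / 4 ≤ p.1 := hp.2
    have a2 : q.1 < -(π / 4) := hq'.2
    nlinarith [sq_nonneg' p.2, sq_nonneg' q.2, h.1]
  have d2 : Disjoint (TR ∪ TL) TM := by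
    rw [Set.disjoint_left]
    rintro _ (⟨p, hp, rfl⟩ | ⟨p, hp, rfl⟩) ⟨q, hq', h⟩
    · simp only [tri, Prod.mk.injEq] at h
      have a1 : π / 4 ≤ p.1 := hp.2
      have a2 : q.1 < π / 4 := not_le.1 hq'.1.2
      have a3 := cmp q.2 p.2 (hX1 q hq'.1.1) h.2.symm
      have a4 : 0 < 1 + ε * (2 / π * sq q.2) := by have := (hsq q.2).1; positivity
      have a5 := mul_lt_mul_of_pos_left a2 a4
      have a6 : (1 + ε * (2 / π * sq q.2)) * (π / 4) = π / 4 + ε / 2 * sq q.2 := by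
        field_simp; ring
      nlinarith [h.1]
    · simp only [tri, Prod.mk.injEq] at h
      have a1 : p.1 < -(π / 4) := hp.2
      have a2 : -(π / 4) ≤ q.1 := not_lt.1 hq'.2
      have a3 := cmp q.2 p.2 (hX1 q hq'.1.1) h.2.symm
      have a4 : 0 < 1 + ε * (2 / π * sq q.2) := by have := (hsq q.2).1; positivity
      have a5 := mul_le_mul_of_nonneg_left a2 a4.le
      have a6 : (1 + ε * (2 / π * sq q.2)) * (-(π / 4)) = -(π / 4) - ε / 2 * sq q.2 := by
        field_simp; ring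
      nlinarith [h.1]
  have cap : ∀ u y : ℝ, y ∈ Ioo (-1 : ℝ) 1 → 0 ≤ u → u ^ 2 + y ^ 2 ≤ 1 →
      (ε / 2 * (u + sq y)) ^ 2 + (ε * y) ^ 2 ≤ ε ^ 2 := by
    intro u y hy hu h
    have a1 := sq_sq hy
    have a2 : u ≤ sq y := le_of_sq_le_sq (by linarith) (sq_nonneg' y)
    have a3 : ((u + sq y) / 2) ^ 2 + y ^ 2 ≤ 1 := by nlinarith [sq_nonneg' y]
    nlinarith [mul_le_mul_of_nonneg_left a3 (sq_nonneg ε)]
  have hsub : TR ∪ TL ∪ TM ⊆ e.symm ⁻¹' A := by
    rintro _ ((⟨p, hp, rfl⟩ | ⟨p, hp, rfl⟩) | ⟨p, hp, rfl⟩)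
    · refine hball p hp.1 _ ?_
      have a1 : π / 4 ≤ p.1 := hp.2
      have a2 := dist_right (hSt p hp.1) a1
      have a3 := dist_sq (e.symm p) (π / 4)
      have a4 : (p.1 - π / 4) ^ 2 + p.2 ^ 2 ≤ 1 := by
        have : dist (e.symm p) ((π / 4 : ℝ) : ℂ) ^ 2 ≤ 1 := pow_le_one₀ dist_nonneg a2
        rw [a3] at this; exact this
      have := cap (p.1 - π / 4) p.2 (hX1 p hp.1) (by linarith) a4
      simp only [tri]
      convert this using 2 <;> ring
    · refine hball p hp.1.1 _ ?_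
      have a1 : p.1 < -(π / 4) := hp.2
      have a2 := dist_left (hSt p hp.1.1) a1.le
      have a3 := dist_sq (e.symm p) (-(π / 4))
      have a4 : (p.1 - -(π / 4)) ^ 2 + p.2 ^ 2 ≤ 1 := by
        have : dist (e.symm p) ((-(π / 4) : ℝ) : ℂ) ^ 2 ≤ 1 := pow_le_one₀ dist_nonneg a2
        rw [a3] at this; exact this
      have := cap (-(π / 4) - p.1) p.2 (hX1 p hp.1.1) (by linarith) (by nlinarith)
      simp only [tri]
      convert this using 2 <;> ring
    · refine hball p hp.1.1 _ ?_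
      have a1 : p.1 < π / 4 := not_le.1 hp.1.2
      have a2 : -(π / 4) ≤ p.1 := not_lt.1 hp.2
      have hy := hX1 p hp.1.1
      have a3 := sq_sq hy
      have a4 : vv p.2 ^ 2 ≤ p.2 ^ 2 := sq_le_sq.2 (abs_vv hy)
      have a5 : (2 / π * p.1) ^ 2 ≤ 1 := by
        have b1 : |2 / π * p.1| ≤ 1 := by
          rw [abs_mul, abs_of_pos (by positivity : 0 < 2 / π), div_mul_eq_mul_div, div_le_one pi_pos]
          have := abs_le.2 ⟨a2, a1.le⟩
          linarith
        exact (sq_le_one_iff_abs_le_one _).2 b1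
      have a6 : (2 / π * p.1) ^ 2 * sq p.2 ^ 2 + vv p.2 ^ 2 ≤ 1 := by
        nlinarith [mul_le_mul_of_nonneg_right a5 (sq_nonneg (sq p.2))]
      simp only [tri]
      have := mul_le_mul_of_nonneg_left a6 (sq_nonneg ε)
      refine le_trans (le_of_eq ?_) (this.trans (le_of_eq (mul_one _)))
      ring
  rw [← he.measure_preimage_equiv A, ← he.measure_preimage_equiv (inn A ε), ← hX,
    ← measure_inter_add_sdiff X mR, ← measure_inter_add_sdiff (X \ _) mL, ← add_assoc, mul_add,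
    mul_add]
  refine le_trans ?_ (measure_mono hsub)
  rw [measure_union d2 mTM, measure_union d1 mTL]
  exact add_le_add (add_le_add vR vL) vM

theorem good_St : Good volume (3 / 2) (2 * π) (St 1) where
  closed := (isCompact_St 1).isClosed
  fin := (isCompact_St 1).measure_lt_top.ne
  le := by rw [real_St (by norm_num)]; linarith
  cheeger := by
    intro ε h0 _ A hA hc
    have hf : volume A ≠ ⊤ := measure_ne_top_of_subset hA (isCompact_St 1).measure_lt_top.ne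
    have := ENNReal.toReal_mono hf (cheeger_St h0 hA hc)
    rwa [ENNReal.toReal_mul, ENNReal.toReal_ofReal (by positivity)] at this
  self := fun ε h0 h1 => self_St h0 h1
  ray := fun ε h0 h1 => ray_St h0 h1

end Pool.Agent.H90Z.Stad
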