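import Pool.Agent.H90Z.Stad.Abs

set_option autoImplicit false

open MeasureTheory Metric Set Filter Topology Real
open scoped ENNReal Pointwise

namespace Pool.Agent.H90Z.Stad

/-- the stadium: points within distance `r` of the segment `[-π/4, π/4]` -/
def St (r : ℝ) : Set ℂ := {z | ∃ t : ℝ, -(π / 4) ≤ t ∧ t ≤ π / 4 ∧ dist z (t : ℂ) ≤ r}

lemma St_eq (r : ℝ) :
    St r = ((fun t : ℝ => (t : ℂ)) '' Icc (-(π / 4)) (π / 4)) + closedBall 0 r := by
  ext z
  simp only [St, mem_ofPred_eq, Set.mem_add, mem_image, mem_Icc, mem_closedBall]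
  constructor
  · rintro ⟨t, h1, h2, h3⟩
    exact ⟨t, ⟨t, ⟨h1, h2⟩, rfl⟩, z - t, by simpa [dist_eq_norm] using h3, by ring⟩
  · rintro ⟨_, ⟨t, ⟨h1, h2⟩, rfl⟩, w, hw, rfl⟩
    exact ⟨t, h1, h2, by simpa [dist_eq_norm] using hw⟩

lemma isCompact_St (r : ℝ) : IsCompact (St r) := by
  rw [St_eq]
  exact (isCompact_Icc.image Complex.continuous_ofReal).add (isCompact_closedBall 0 r)

lemma convex_St (r : ℝ) : Convex ℝ (St r) := by
  rw [St_eq]
  exact ((convex_Icc _ _).linear_image Complex.ofRealCLM.toLinearMap).add (convex_closedBall 0 r)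

lemma closedBall_subset_St {t r : ℝ} (h1 : -(π / 4) ≤ t) (h2 : t ≤ π / 4) :
    closedBall (t : ℂ) r ⊆ St r := fun _ hz => ⟨t, h1, h2, hz⟩

lemma dist_sq (z : ℂ) (t : ℝ) : dist z (t : ℂ) ^ 2 = (z.re - t) ^ 2 + z.im ^ 2 := by
  rw [Complex.dist_eq_re_im, Real.sq_sqrt (by positivity)]; simp

lemma abs_im_le {z : ℂ} {r : ℝ} (h : z ∈ St r) : |z.im| ≤ r := by
  obtain ⟨t, _, _, h3⟩ := h
  refine le_trans ?_ h3
  have := Complex.abs_im_le_norm (z - t)
  simpa [dist_eq_norm] using this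

lemma dist_right {z : ℂ} {r : ℝ} (h : z ∈ St r) (hz : π / 4 ≤ z.re) :
    dist z ((π / 4 : ℝ) : ℂ) ≤ r := by
  obtain ⟨t, _, h2, h3⟩ := h
  refine le_trans (le_of_sq_le_sq ?_ dist_nonneg) h3
  rw [dist_sq, dist_sq]; nlinarith

lemma dist_left {z : ℂ} {r : ℝ} (h : z ∈ St r) (hz : z.re ≤ -(π / 4)) :
    dist z ((-(π / 4) : ℝ) : ℂ) ≤ r := by
  obtain ⟨t, h1, _, h3⟩ := h
  refine le_trans (le_of_sq_le_sq ?_ dist_nonneg) h3
  rw [dist_sq, dist_sq]; nlinarith

lemma dist_re (z : ℂ) : dist z (z.re : ℂ) = |z.im| := by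
  rw [← sq_eq_sq₀ dist_nonneg (abs_nonneg _), dist_sq]; simp

lemma mem_St_mid {z : ℂ} {r : ℝ} (h1 : -(π / 4) ≤ z.re) (h2 : z.re ≤ π / 4) (h3 : |z.im| ≤ r) :
    z ∈ St r := ⟨z.re, h1, h2, by rw [dist_re]; exact h3⟩

lemma q_pos : 0 < π / 4 := by positivity

lemma vol_St {r : ℝ} (hr : 0 ≤ r) :
    volume (St r) = ENNReal.ofReal (π * r ^ 2 + π * r) := by
  have hq := q_pos
  have mR : MeasurableSet {z : ℂ | π / 4 ≤ z.re} :=
    measurableSet_le measurable_const Complex.measurable_re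
  have mL : MeasurableSet {z : ℂ | z.re < -(π / 4)} :=
    measurableSet_lt Complex.measurable_re measurable_const
  have m0 : MeasurableSet {z : ℂ | 0 ≤ z.re} :=
    measurableSet_le measurable_const Complex.measurable_re
  have e1 : St r ∩ {z : ℂ | π / 4 ≤ z.re} =
      (fun z => z + ((-(π / 4) : ℝ) : ℂ)) ⁻¹' (closedBall 0 r ∩ {z : ℂ | 0 ≤ z.re}) := by
    ext z
    simp only [mem_inter_iff, mem_ofPred_eq, mem_preimage, mem_closedBall, Complex.add_re,
      Complex.ofReal_re]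
    have : dist (z + ((-(π / 4) : ℝ) : ℂ)) 0 = dist z ((π / 4 : ℝ) : ℂ) := by
      rw [dist_eq_norm, dist_eq_norm]; congr 1; push_cast; ring
    rw [this]
    constructor
    · rintro ⟨h1, h2⟩; exact ⟨dist_right h1 h2, by linarith⟩
    · rintro ⟨h1, h2⟩; exact ⟨⟨π / 4, by linarith, le_rfl, h1⟩, by linarith⟩
  have e2 : (St r \ {z : ℂ | π / 4 ≤ z.re}) ∩ {z : ℂ | z.re < -(π / 4)} =
      (fun z => z + ((π / 4 : ℝ) : ℂ)) ⁻¹' (closedBall 0 r \ {z : ℂ | 0 ≤ z.re}) := by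
    ext z
    simp only [mem_inter_iff, mem_ofPred_eq, mem_preimage, mem_closedBall, Complex.add_re,
      Complex.ofReal_re, Set.mem_sdiff, not_le]
    have : dist (z + ((π / 4 : ℝ) : ℂ)) 0 = dist z ((-(π / 4) : ℝ) : ℂ) := by
      rw [dist_eq_norm, dist_eq_norm]; congr 1; push_cast; ring
    rw [this]
    constructor
    · rintro ⟨⟨h1, _⟩, h2⟩; exact ⟨dist_left h1 h2.le, by linarith⟩
    · rintro ⟨h1, h2⟩; exact ⟨⟨⟨-(π / 4), le_rfl, by linarith, h1⟩, by linarith⟩, by linarith⟩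
  have e3 : (St r \ {z : ℂ | π / 4 ≤ z.re}) \ {z : ℂ | z.re < -(π / 4)} =
      Complex.measurableEquivRealProd ⁻¹' (Ico (-(π / 4)) (π / 4) ×ˢ Icc (-r) r) := by
    ext z
    simp only [mem_ofPred_eq, mem_preimage, Set.mem_sdiff, not_le, not_lt,
      Complex.measurableEquivRealProd_apply, mem_prod, mem_Ico, mem_Icc]
    constructor
    · rintro ⟨⟨h1, h2⟩, h3⟩; exact ⟨⟨h3, h2⟩, abs_le.1 (abs_im_le h1)⟩
    · rintro ⟨⟨h1, h2⟩, h3⟩; exact ⟨⟨mem_St_mid h1 h2.le (abs_le.2 h3), h2⟩, h1⟩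
  rw [← measure_inter_add_sdiff (St r) mR, ← measure_inter_add_sdiff (St r \ _) mL, e1, e2, e3,
    measure_preimage_add_right, measure_preimage_add_right, ← add_assoc,
    measure_inter_add_sdiff _ m0, Complex.volume_preserving_equiv_real_prod.measure_preimage_equiv,
    Complex.volume_closedBall, Measure.volume_eq_prod, Measure.prod_prod, Real.volume_Ico,
    Real.volume_Icc, ← ENNReal.ofReal_mul (by linarith), ← ENNReal.ofReal_pow hr,
    ENNReal.ofReal_add (by positivity) (by positivity)]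
  congr 1
  · rw [mul_comm π, ENNReal.ofReal_mul (by positivity)]
    congr 1
    rw [← NNReal.coe_real_pi, ENNReal.ofReal_coe_nnreal]
  · congr 1; ring

lemma real_St {r : ℝ} (hr : 0 ≤ r) : volume.real (St r) = π * r ^ 2 + π * r := by
  rw [Measure.real, vol_St hr, ENNReal.toReal_ofReal (by positivity)]

lemma St_subset_inn {ε : ℝ} : St (1 - ε) ⊆ inn (St 1) ε := by
  rintro z ⟨t, h1, h2, h3⟩ w hw
  refine ⟨t, h1, h2, ?_⟩
  have := dist_triangle w z t
  rw [mem_ball] at hw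
  linarith

lemma self_St {ε : ℝ} (h0 : 0 < ε) (h1 : ε < 1) :
    volume.real (St 1) - volume.real (inn (St 1) ε) ≤ 3 / 2 * ε * volume.real (St 1) := by
  have : volume.real (St (1 - ε)) ≤ volume.real (inn (St 1) ε) :=
    measureReal_mono St_subset_inn
      (measure_ne_top_of_subset (inn_subset _ h0) (isCompact_St 1).measure_lt_top.ne)
  rw [real_St (by linarith)] at this
  rw [real_St (by norm_num)]
  nlinarith [pi_pos, mul_pos pi_pos (mul_pos h0 h0)]

/-- top side -/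
def top : Set ℂ := {z | -(π / 4) ≤ z.re ∧ z.re ≤ π / 4 ∧ z.im = 1}
/-- bottom side -/
def bot : Set ℂ := {z | -(π / 4) ≤ z.re ∧ z.re ≤ π / 4 ∧ z.im = -1}

lemma frontier_subset : frontier (St 1) ⊆
    top ∪ bot ∪ sphere ((π / 4 : ℝ) : ℂ) 1 ∪ sphere ((-(π / 4) : ℝ) : ℂ) 1 := by
  intro z hz
  have hq := q_pos
  have h1 : z ∈ St 1 := (isCompact_St 1).isClosed.frontier_subset hz
  have key : ∀ t : ℝ, -(π / 4) ≤ t → t ≤ π / 4 → 1 ≤ dist z (t : ℂ) := by
    intro t a b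
    by_contra hlt
    push Not at hlt
    exact hz.2 (interior_mono (ball_subset_closedBall.trans (closedBall_subset_St a b))
      (by rw [isOpen_ball.interior_eq]; exact hlt))
  rcases le_total (π / 4) z.re with h | h
  · exact Or.inl (Or.inr (le_antisymm (dist_right h1 h) (key _ (by linarith) le_rfl)))
  rcases le_total z.re (-(π / 4)) with h' | h'
  · exact Or.inr (le_antisymm (dist_left h1 h') (key _ le_rfl (by linarith)))
  have a := key z.re h' h
  rw [dist_re] at a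
  have b : |z.im| = 1 := le_antisymm (abs_im_le h1) a
  rcases (abs_eq (by norm_num : (0 : ℝ) ≤ 1)).1 b with c | c
  · exact Or.inl (Or.inl (Or.inl ⟨h', h, c⟩))
  · exact Or.inl (Or.inl (Or.inr ⟨h', h, c⟩))

lemma mem_frontier_of {z u : ℂ} (hz : z ∈ St 1) (hu : ‖u‖ = 1)
    (h : ∀ δ : ℝ, 0 < δ → z + δ * u ∉ St 1) : z ∈ frontier (St 1) := by
  refine ⟨subset_closure hz, fun hi => ?_⟩
  obtain ⟨δ, hδ, hb⟩ := Metric.mem_nhds_iff.1 (mem_interior_iff_mem_nhds.1 hi)
  refine h (δ / 2) (by linarith) (hb ?_)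
  rw [mem_ball, dist_eq_norm, add_sub_cancel_left, norm_mul, hu, Complex.norm_real,
    Real.norm_eq_abs, abs_of_pos (by linarith)]
  linarith

lemma top_subset : top ⊆ frontier (St 1) := by
  rintro z ⟨h1, h2, h3⟩
  refine mem_frontier_of (u := Complex.I) (mem_St_mid h1 h2 (by rw [h3]; simp)) (by simp) ?_
  intro δ hδ h
  have := abs_im_le h
  simp [h3] at this
  rw [abs_of_pos (by linarith)] at this
  linarith

lemma bot_subset : bot ⊆ frontier (St 1) := by
  rintro z ⟨h1, h2, h3⟩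
  refine mem_frontier_of (u := -Complex.I) (mem_St_mid h1 h2 (by rw [h3]; simp)) (by simp) ?_
  intro δ hδ h
  have := abs_im_le h
  simp [h3] at this
  rw [abs_of_neg (by linarith)] at this
  linarith

lemma right_mem {u : ℂ} (hu : ‖u‖ = 1) (h : 0 ≤ u.re) :
    u + ((π / 4 : ℝ) : ℂ) ∈ frontier (St 1) := by
  have hq := q_pos
  refine mem_frontier_of (u := u) ⟨π / 4, by linarith, le_rfl, by simp [dist_eq_norm, hu]⟩ hu ?_
  intro δ hδ hm
  have := dist_right hm (by simp only [Complex.add_re, Complex.ofReal_re, Complex.re_ofReal_mul]; nlinarith)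
  have e : u + ((π / 4 : ℝ) : ℂ) + δ * u - ((π / 4 : ℝ) : ℂ) = ((1 + δ : ℝ) : ℂ) * u := by
    push_cast; ring
  rw [dist_eq_norm, e, norm_mul, hu, Complex.norm_real, Real.norm_eq_abs,
    abs_of_pos (by linarith)] at this
  linarith

lemma left_mem {u : ℂ} (hu : ‖u‖ = 1) (h : u.re ≤ 0) :
    u + ((-(π / 4) : ℝ) : ℂ) ∈ frontier (St 1) := by
  have hq := q_pos
  refine mem_frontier_of (u := u) ⟨-(π / 4), le_rfl, by linarith, by simp [dist_eq_norm, hu]⟩ hu ?_
  intro δ hδ hm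
  have := dist_left hm (by simp only [Complex.add_re, Complex.ofReal_re, Complex.re_ofReal_mul]; nlinarith)
  have e : u + ((-(π / 4) : ℝ) : ℂ) + δ * u - ((-(π / 4) : ℝ) : ℂ) = ((1 + δ : ℝ) : ℂ) * u := by
    push_cast; ring
  rw [dist_eq_norm, e, norm_mul, hu, Complex.norm_real, Real.norm_eq_abs,
    abs_of_pos (by linarith)] at this
  linarith

lemma arc_lower {m d : ℝ} (hd : 0 < d) (hd' : d ≤ π / 2) (h1 : -π ≤ m - d) (h2 : m + d ≤ π) :
    ENNReal.ofReal (2 * sin d) ≤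
      μH[1] (sphere (0 : ℂ) 1 ∩ Complex.arg ⁻¹' Ioc (m - d) (m + d)) := by
  set p : ℂ → ℝ := fun z => (z * Complex.exp (((-m : ℝ) : ℂ) * Complex.I)).im with hp
  have hL : LipschitzWith 1 p := by
    refine LipschitzWith.of_dist_le_mul fun z w => ?_
    rw [Real.dist_eq, hp]
    simp only [NNReal.coe_one, one_mul]
    rw [← Complex.sub_im, ← sub_mul]
    refine (Complex.abs_im_le_norm _).trans (le_of_eq ?_)
    rw [norm_mul, Complex.norm_exp_ofReal_mul_I, mul_one, dist_eq_norm]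
  have h3 := hL.hausdorffMeasure_image_le (d := 1) (by norm_num)
    (sphere (0 : ℂ) 1 ∩ Complex.arg ⁻¹' Ioc (m - d) (m + d))
  simp only [ENNReal.coe_one, ENNReal.one_rpow, one_mul] at h3
  refine le_trans ?_ h3
  rw [hausdorffMeasure_real]
  have hs : Ioo (-sin d) (sin d) ⊆
      p '' (sphere (0 : ℂ) 1 ∩ Complex.arg ⁻¹' Ioc (m - d) (m + d)) := by
    intro t ht
    have hs1 := sin_le_one d
    have ht1 : t ∈ Icc (-1 : ℝ) 1 := ⟨by linarith [ht.1], by linarith [ht.2]⟩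
    have hdI : d ∈ Icc (-(π / 2)) (π / 2) := ⟨by linarith [pi_pos], hd'⟩
    have hdI' : -d ∈ Icc (-(π / 2)) (π / 2) := ⟨by linarith, by linarith [pi_pos]⟩
    have a1 : arcsin t < d := (arcsin_lt_iff_lt_sin ht1 hdI).2 ht.2
    have a2 : -d < arcsin t := (lt_arcsin_iff_sin_lt hdI' ht1).2 (by rw [sin_neg]; exact ht.1)
    refine ⟨Complex.exp (((m + arcsin t : ℝ) : ℂ) * Complex.I), ⟨?_, ?_⟩, ?_⟩
    · rw [mem_sphere_zero_iff_norm, Complex.norm_exp_ofReal_mul_I]
    · rw [mem_preimage, Complex.exp_mul_I, ← Complex.ofReal_cos, ← Complex.ofReal_sin,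
        Complex.ofReal_cos, Complex.ofReal_sin,
        Complex.arg_cos_add_sin_mul_I ⟨by linarith, by linarith⟩]
      exact ⟨by linarith, by linarith⟩
    · simp only [hp]
      rw [← Complex.exp_add, ← add_mul, ← Complex.ofReal_add, Complex.exp_ofReal_mul_I_im]
      rw [show m + arcsin t + -m = arcsin t by ring, sin_arcsin ht1.1 ht1.2]
  refine le_trans (le_of_eq ?_) (measure_mono hs)
  rw [Real.volume_Ioo]; congr 1; ring

lemma sphere_lower : ENNReal.ofReal (2 * π) ≤ μH[1] (sphere (0 : ℂ) 1) := by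
  have key : ∀ n : ℕ, 4 ≤ n → ENNReal.ofReal (2 * π - π ^ 3 / 2 * ((n : ℝ)⁻¹) ^ 2) ≤
      μH[1] (sphere (0 : ℂ) 1) := by
    intro n hn
    have hn' : (4 : ℝ) ≤ n := by exact_mod_cast hn
    have hn0 : (0 : ℝ) < n := by linarith
    set d : ℝ := π / n with hd
    have hd0 : 0 < d := by positivity
    have hnd : n * d = π := by rw [hd]; field_simp
    have hd1 : d ≤ 1 := by rw [hd, div_le_one hn0]; linarith [pi_le_four]
    have hd2 : d ≤ π / 2 := by nlinarith
    set A : ℕ → Set ℂ := fun k => sphere (0 : ℂ) 1 ∩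
      Complex.arg ⁻¹' Ioc ((-π + (2 * k + 1) * d) - d) ((-π + (2 * k + 1) * d) + d) with hA
    have hm : ∀ k ∈ Finset.range n, MeasurableSet (A k) := fun k _ =>
      isClosed_sphere.measurableSet.inter (Complex.measurable_arg measurableSet_Ioc)
    have hdisj : Set.PairwiseDisjoint (↑(Finset.range n)) A := by
      intro i _ j _ hij
      rw [Function.onFun, Set.disjoint_left]
      rintro z ⟨_, a1, a2⟩ ⟨_, b1, b2⟩
      rcases lt_or_gt_of_ne hij with h | h
      · have : (i : ℝ) + 1 ≤ j := by exact_mod_cast h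
        nlinarith
      · have : (j : ℝ) + 1 ≤ i := by exact_mod_cast h
        nlinarith
    have hsum := measure_biUnion_finset (μ := μH[1]) hdisj hm
    have hsub : ⋃ k ∈ Finset.range n, A k ⊆ sphere (0 : ℂ) 1 :=
      iUnion₂_subset fun k _ => inter_subset_left
    refine le_trans ?_ (measure_mono hsub)
    rw [hsum]
    have hl : ∀ k ∈ Finset.range n, ENNReal.ofReal (2 * sin d) ≤ μH[1] (A k) := by
      intro k hk
      have hk' : (k : ℝ) + 1 ≤ n := by exact_mod_cast Finset.mem_range.1 hk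
      have hk0 : (0 : ℝ) ≤ k := Nat.cast_nonneg k
      exact arc_lower hd0 hd2 (by nlinarith) (by nlinarith)
    refine le_trans ?_ (Finset.sum_le_sum hl)
    rw [Finset.sum_const, Finset.card_range, nsmul_eq_mul, ← ENNReal.ofReal_natCast,
      ← ENNReal.ofReal_mul hn0.le]
    refine ENNReal.ofReal_le_ofReal ?_
    have hs : d - d ^ 3 / 4 ≤ sin d := by
      have := (sin_gt_sub_cube hd0).le
      have h3 : 0 ≤ d ^ 3 := by positivity
      linarith
    have e : π ^ 3 / 2 * ((n : ℝ)⁻¹) ^ 2 = n * (2 * (d ^ 3 / 4)) := by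
      rw [hd]; field_simp; ring
    rw [e]
    nlinarith [mul_le_mul_of_nonneg_left hs hn0.le]
  have lim : Tendsto (fun n : ℕ => ENNReal.ofReal (2 * π - π ^ 3 / 2 * ((n : ℝ)⁻¹) ^ 2)) atTop
      (𝓝 (ENNReal.ofReal (2 * π))) := by
    refine ENNReal.tendsto_ofReal ?_
    have h := (tendsto_inv_atTop_nhds_zero_nat (𝕜 := ℝ)).pow 2
    have := (h.const_mul (π ^ 3 / 2)).const_sub (2 * π)
    simpa using this
  exact le_of_tendsto lim (eventually_atTop.2 ⟨4, key⟩)

lemma side_lower {P : Set ℂ} {c : ℝ}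
    (h : ∀ x : ℝ, -(π / 4) ≤ x → x < π / 4 → (⟨x, c⟩ : ℂ) ∈ P) :
    ENNReal.ofReal (π / 2) ≤ μH[1] P := by
  have hL : LipschitzWith 1 Complex.re := by
    refine LipschitzWith.of_dist_le_mul fun z w => ?_
    rw [Real.dist_eq]
    simp only [NNReal.coe_one, one_mul]
    rw [← Complex.sub_re, dist_eq_norm]
    exact Complex.abs_re_le_norm _
  have h3 := hL.hausdorffMeasure_image_le (d := 1) (by norm_num) P
  simp only [ENNReal.coe_one, ENNReal.one_rpow, one_mul] at h3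
  refine le_trans ?_ h3
  rw [hausdorffMeasure_real]
  have hs : Ico (-(π / 4)) (π / 4) ⊆ Complex.re '' P := fun x hx => ⟨_, h x hx.1 hx.2, rfl⟩
  refine le_trans (le_of_eq ?_) (measure_mono hs)
  rw [Real.volume_Ico]; congr 1; ring

lemma perim_lower : ENNReal.ofReal (3 * π) ≤ μH[1] (frontier (St 1)) := by
  have hq := q_pos
  have mR : MeasurableSet {z : ℂ | π / 4 ≤ z.re} :=
    measurableSet_le measurable_const Complex.measurable_re
  have mL : MeasurableSet {z : ℂ | z.re < -(π / 4)} :=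
    measurableSet_lt Complex.measurable_re measurable_const
  have m0 : MeasurableSet {z : ℂ | 0 ≤ z.re} :=
    measurableSet_le measurable_const Complex.measurable_re
  have m1 : MeasurableSet {z : ℂ | 0 ≤ z.im} :=
    measurableSet_le measurable_const Complex.measurable_im
  set F := frontier (St 1)
  have e1 : μH[1] (sphere (0 : ℂ) 1 ∩ {z : ℂ | 0 ≤ z.re}) ≤ μH[1] (F ∩ {z : ℂ | π / 4 ≤ z.re}) := by
    rw [← (IsometryEquiv.addRight ((π / 4 : ℝ) : ℂ)).hausdorffMeasure_image]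
    refine measure_mono ?_
    rintro _ ⟨u, ⟨hu, hu'⟩, rfl⟩
    refine ⟨right_mem (mem_sphere_zero_iff_norm.1 hu) hu', ?_⟩
    simp only [IsometryEquiv.addRight_apply, mem_ofPred_eq, Complex.add_re, Complex.ofReal_re] at hu' ⊢
    linarith
  have e2 : μH[1] (sphere (0 : ℂ) 1 \ {z : ℂ | 0 ≤ z.re}) ≤
      μH[1] ((F \ {z : ℂ | π / 4 ≤ z.re}) ∩ {z : ℂ | z.re < -(π / 4)}) := by
    rw [← (IsometryEquiv.addRight ((-(π / 4) : ℝ) : ℂ)).hausdorffMeasure_image]
    refine measure_mono ?_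
    rintro _ ⟨u, ⟨hu, hu'⟩, rfl⟩
    simp only [mem_ofPred_eq, not_le] at hu'
    refine ⟨⟨left_mem (mem_sphere_zero_iff_norm.1 hu) hu'.le, ?_⟩, ?_⟩ <;>
    simp only [IsometryEquiv.addRight_apply, mem_ofPred_eq, Complex.add_re, Complex.ofReal_re,
      not_le] <;>
    linarith
  set G := (F \ {z : ℂ | π / 4 ≤ z.re}) \ {z : ℂ | z.re < -(π / 4)}
  have e3 : ENNReal.ofReal (π / 2) ≤ μH[1] (G ∩ {z : ℂ | 0 ≤ z.im}) :=
    side_lower (c := 1) fun x a b =>
      ⟨⟨⟨top_subset ⟨a, b.le, rfl⟩, not_le.2 b⟩, not_lt.2 a⟩, (by norm_num : (0 : ℝ) ≤ 1)⟩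
  have e4 : ENNReal.ofReal (π / 2) ≤ μH[1] (G \ {z : ℂ | 0 ≤ z.im}) :=
    side_lower (c := -1) fun x a b =>
      ⟨⟨⟨bot_subset ⟨a, b.le, rfl⟩, not_le.2 b⟩, not_lt.2 a⟩, (by norm_num : ¬ (0 : ℝ) ≤ -1)⟩
  have e5 := sphere_lower
  rw [← measure_inter_add_sdiff _ m0] at e5
  rw [← measure_inter_add_sdiff F mR, ← measure_inter_add_sdiff (F \ _) mL,
    ← measure_inter_add_sdiff G m1, ← add_assoc,
    show 3 * π = 2 * π + (π / 2 + π / 2) by ring,
    ENNReal.ofReal_add (by positivity) (by positivity),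
    ENNReal.ofReal_add (by positivity) (by positivity)]
  exact add_le_add (e5.trans (add_le_add e1 e2)) (add_le_add e3 e4)

end Pool.Agent.H90Z.Stad
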