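import Pool.Agent.H90Z.Stad.Geo

set_option autoImplicit false

open MeasureTheory Metric Set Filter Topology Real
open scoped ENNReal Pointwise

namespace Pool.Agent.H90Z.Stad

lemma ray_top {ε : ℝ} (h0 : 0 < ε) (h1 : ε < 1) : Ray volume ε (St 1) top := by
  intro Γ hΓ hm
  set γ : ℝ → ℂ := fun x => (x : ℂ) + Complex.I with hγ
  have hγc : Continuous γ := by fun_prop
  have hL : LipschitzWith 1 γ := by
    refine LipschitzWith.of_dist_le_mul fun x y => ?_
    simp only [hγ, NNReal.coe_one, one_mul, dist_add_right]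
    rw [Complex.isometry_ofReal.dist_eq]
  set S := γ ⁻¹' Γ with hS
  have hSm : MeasurableSet S := hγc.measurable hm
  have hΓS : Γ ⊆ γ '' S := by
    intro z hz
    have e : γ z.re = z := by
      apply Complex.ext <;> simp [hγ, (hΓ hz).2.2]
    exact ⟨z.re, by rw [hS, mem_preimage, e]; exact hz, e⟩
  have h3 := hL.hausdorffMeasure_image_le (d := 1) (by norm_num) S
  simp only [ENNReal.coe_one, ENNReal.one_rpow, one_mul] at h3
  rw [hausdorffMeasure_real] at h3
  refine ⟨Complex.measurableEquivRealProd ⁻¹' (S ×ˢ Ioo (1 - ε) 1),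
    Complex.measurableEquivRealProd.measurable (hSm.prod measurableSet_Ioo), ?_, ?_⟩
  · rw [Complex.volume_preserving_equiv_real_prod.measure_preimage_equiv, Measure.volume_eq_prod,
      Measure.prod_prod, Real.volume_Ioo, mul_comm]
    exact mul_le_mul' ((measure_mono hΓS).trans h3) (ENNReal.ofReal_le_ofReal (by nlinarith))
  · intro y hy
    simp only [mem_preimage, Complex.measurableEquivRealProd_apply, mem_prod, mem_Ioo] at hy
    obtain ⟨hy1, hy2, hy3⟩ := hy
    have hx := hΓ hy1
    have hre : (γ y.re).re = y.re := by simp [hγ]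
    have d1 : dist y (γ y.re) = 1 - y.im := by
      rw [Complex.dist_eq_re_im]
      simp only [hγ, Complex.add_re, Complex.ofReal_re, Complex.I_re, add_zero, sub_self,
        Complex.add_im, Complex.ofReal_im, Complex.I_im, zero_add]
      rw [show (0 : ℝ) ^ 2 + (y.im - 1) ^ 2 = (1 - y.im) ^ 2 by ring,
        Real.sqrt_sq (by linarith)]
    refine ⟨γ y.re, hy1, (y.re : ℂ), closedBall_subset_St (hre ▸ hx.1) (hre ▸ hx.2.1), ?_, ?_, ?_⟩
    · simp [hγ, dist_eq_norm]
    · rw [d1, dist_re, abs_of_pos (by linarith)]; ring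
    · rw [d1]; linarith

lemma ray_bot {ε : ℝ} (h0 : 0 < ε) (h1 : ε < 1) : Ray volume ε (St 1) bot := by
  have := (ray_top h0 h1).image Complex.conjLIE.toIsometryEquiv
    (LinearIsometryEquiv.measurePreserving Complex.conjLIE)
  refine this.mono ?_ ?_
  · rintro _ ⟨z, ⟨t, a, b, c⟩, rfl⟩
    refine ⟨t, a, b, ?_⟩
    refine le_trans (le_of_sq_le_sq (le_of_eq ?_) dist_nonneg) c
    rw [dist_sq, dist_sq]; simp
  · rintro z ⟨a, b, c⟩
    exact ⟨(starRingEnd ℂ) z, ⟨by simpa using a, by simpa using b, by simp [c]⟩, by simp⟩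

lemma ray_sphere {ε : ℝ} (h0 : 0 < ε) (h1 : ε < 1) :
    Ray volume ε (closedBall (0 : ℂ) 1) (sphere (0 : ℂ) 1) := by
  intro Γ hΓ hm
  set γ : ℝ → ℂ := fun x => Complex.exp ((x : ℂ) * Complex.I) with hγ
  have hγc : Continuous γ := by fun_prop
  have hL : LipschitzWith 1 γ := by
    have := lipschitzWith_circleMap 0 1
    rw [map_one] at this
    have e : γ = circleMap 0 1 := by
      funext x; simp [hγ, circleMap]
    rw [e]; exact this
  set S := γ ⁻¹' Γ ∩ Ioo (-π) π with hS
  have hSm : MeasurableSet S := (hγc.measurable hm).inter measurableSet_Ioo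
  have hΓS : Γ ⊆ γ '' S ∪ {-1} := by
    intro z hz
    have hz1 : ‖z‖ = 1 := mem_sphere_zero_iff_norm.1 (hΓ hz)
    have e : γ (Complex.arg z) = z := by
      have := Complex.norm_mul_exp_arg_mul_I z
      rw [hz1] at this
      simpa [hγ] using this
    rcases (Complex.arg_le_pi z).eq_or_lt with h | h
    · right
      rw [mem_singleton_iff, ← e, h]
      simp [hγ]
    · left
      exact ⟨Complex.arg z, ⟨by rw [mem_preimage, e]; exact hz, Complex.neg_pi_lt_arg z, h⟩, e⟩
  have h3 := hL.hausdorffMeasure_image_le (d := 1) (by norm_num) S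
  simp only [ENNReal.coe_one, ENNReal.one_rpow, one_mul] at h3
  rw [hausdorffMeasure_real] at h3
  have h4 : μH[1] Γ ≤ volume S := by
    refine (measure_mono hΓS).trans ((measure_union_le _ _).trans ?_)
    have := Measure.nullSingletonClass_hausdorff ℂ (show (0 : ℝ) < 1 by norm_num)
    rw [measure_singleton, add_zero]; exact h3
  set D : Set (ℝ × ℝ) := Ioo (1 - ε) 1 ×ˢ S with hD
  have hDm : MeasurableSet D := measurableSet_Ioo.prod hSm
  have hDt : D ⊆ polarCoord.target := by
    rintro ⟨r, θ⟩ ⟨a, b⟩
    exact ⟨by simp only [mem_Ioi]; linarith [a.1], b.2⟩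
  have hinj : InjOn polarCoord.symm D := polarCoord.symm.injOn.mono hDt
  have hder : ∀ p ∈ D, HasFDerivWithinAt polarCoord.symm (fderivPolarCoordSymm p) D p :=
    fun p _ => (hasFDerivAt_polarCoord_symm p).hasFDerivWithinAt
  have hI := lintegral_abs_det_fderiv_eq_addHaar_image volume hDm hder hinj
  refine ⟨Complex.measurableEquivRealProd ⁻¹' (polarCoord.symm '' D),
    Complex.measurableEquivRealProd.measurable (measurable_image_of_fderivWithin hDm hder hinj),
    ?_, ?_⟩
  · rw [Complex.volume_preserving_equiv_real_prod.measure_preimage_equiv, ← hI]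
    calc ENNReal.ofReal (ε * (1 - ε)) * μH[1] Γ
        ≤ ENNReal.ofReal (1 - ε) * volume D := by
          rw [hD, Measure.volume_eq_prod, Measure.prod_prod, Real.volume_Ioo, ← mul_assoc,
            ← ENNReal.ofReal_mul (by linarith)]
          exact mul_le_mul' (ENNReal.ofReal_le_ofReal (le_of_eq (by ring))) h4
      _ = ∫⁻ _ in D, ENNReal.ofReal (1 - ε) := by rw [setLIntegral_const]
      _ ≤ _ := by
          refine setLIntegral_mono' hDm fun p hp => ENNReal.ofReal_le_ofReal ?_
          rw [det_fderivPolarCoordSymm]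
          exact hp.1.1.le.trans (le_abs_self _)
  · rintro y ⟨⟨r, θ⟩, ⟨a, b⟩, e⟩
    have ey : y = (r : ℂ) * γ θ := by
      have e1 : y.re = r * cos θ := (congrArg Prod.fst e).symm
      have e2 : y.im = r * sin θ := (congrArg Prod.snd e).symm
      apply Complex.ext
      · rw [e1, Complex.re_ofReal_mul, Complex.exp_ofReal_mul_I_re]
      · rw [e2, Complex.im_ofReal_mul, Complex.exp_ofReal_mul_I_im]
    have hn : ‖γ θ‖ = 1 := Complex.norm_exp_ofReal_mul_I θ
    have a1 : 1 - ε < r := a.1
    have a2 : r < 1 := a.2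
    have d1 : dist y (γ θ) = 1 - r := by
      rw [dist_eq_norm, ey, show (r : ℂ) * γ θ - γ θ = ((r - 1 : ℝ) : ℂ) * γ θ by push_cast; ring,
        norm_mul, hn, Complex.norm_real, Real.norm_eq_abs, abs_of_neg (by linarith)]
      ring
    have d2 : dist y 0 = r := by
      rw [dist_zero_right, ey, norm_mul, hn, Complex.norm_real, Real.norm_eq_abs,
        abs_of_pos (by linarith), mul_one]
    refine ⟨γ θ, b.1, 0, Subset.rfl, by rw [dist_zero_right, hn], by rw [d1, d2]; ring, ?_⟩
    rw [d1]; linarith

lemma ray_sphere' {ε : ℝ} (h0 : 0 < ε) (h1 : ε < 1) (c : ℂ) :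
    Ray volume ε (closedBall c 1) (sphere c 1) := by
  have := (ray_sphere h0 h1).image (IsometryEquiv.addRight c) (measurePreserving_add_right _ c)
  rwa [IsometryEquiv.image_closedBall, IsometryEquiv.image_sphere, IsometryEquiv.addRight_apply,
    zero_add] at this

lemma ray_St {ε : ℝ} (h0 : 0 < ε) (h1 : ε < 1) : Ray volume ε (St 1) (frontier (St 1)) := by
  have hq := q_pos
  have mt : MeasurableSet top := by
    refine IsClosed.measurableSet ?_
    exact (isClosed_le continuous_const Complex.continuous_re).inter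
      ((isClosed_le Complex.continuous_re continuous_const).inter
        (isClosed_eq Complex.continuous_im continuous_const))
  have mb : MeasurableSet bot := by
    refine IsClosed.measurableSet ?_
    exact (isClosed_le continuous_const Complex.continuous_re).inter
      ((isClosed_le Complex.continuous_re continuous_const).inter
        (isClosed_eq Complex.continuous_im continuous_const))
  have r1 := (ray_top h0 h1).mono Subset.rfl (inter_subset_left (t := frontier (St 1)))
  have r2 := (ray_bot h0 h1).mono Subset.rfl (inter_subset_left (t := frontier (St 1)))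
  have r3 := (ray_sphere' h0 h1 ((π / 4 : ℝ) : ℂ)).mono
    (closedBall_subset_St (by linarith) le_rfl) (inter_subset_left (t := frontier (St 1)))
  have r4 := (ray_sphere' h0 h1 ((-(π / 4) : ℝ) : ℂ)).mono
    (closedBall_subset_St le_rfl (by linarith)) (inter_subset_left (t := frontier (St 1)))
  have := Ray.union h1 ((mt.union mb).union isClosed_sphere.measurableSet)
    (Ray.union h1 (mt.union mb) (Ray.union h1 mt r1 r2) r3) r4
  exact this.mono Subset.rfl fun x hx => ⟨frontier_subset hx, hx⟩

end Pool.Agent.H90Z.Stad
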